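import Pool.Agent.H75.Krek.Cyc

/-!
# Comparison with Mathlib's derived series
-/

set_option autoImplicit false

namespace Pool.Agent.H75.Krek

variable {L : Type*} [LieRing L] {G : Type*} [AddCommGroup G]

theorem lie_mem_iSup_star {X Y : G → AddSubgroup L} {x y : L} (hx : x ∈ ⨆ i, X i)
    (hy : y ∈ ⨆ i, Y i) : ⁅x, y⁆ ∈ ⨆ i, star X Y i := by
  have h1 : ∀ i, ∀ x ∈ X i, ∀ y ∈ ⨆ i, Y i, ⁅x, y⁆ ∈ ⨆ i, star X Y i := by
    intro i x hx y hy
    have : (⨆ i, Y i) ≤ (⨆ i, star X Y i).comap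
        ({ toFun := fun z => ⁅x, z⁆, map_zero' := lie_zero x,
           map_add' := fun a b => lie_add x a b } : L →+ L) := by
      refine iSup_le ?_
      intro j y hy
      exact AddSubgroup.mem_iSup_of_mem (i + j) (mem_star hx hy)
    exact this hy
  have : (⨆ i, X i) ≤ (⨆ i, star X Y i).comap
      ({ toFun := fun z => ⁅z, y⁆, map_zero' := zero_lie y,
         map_add' := fun a b => add_lie a b y } : L →+ L) := by
    refine iSup_le ?_
    intro i x hx
    exact h1 i x hx y hy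
  exact this hx

theorem derivedSeries_le {X : G → AddSubgroup L} (hX : ⨆ i, X i = ⊤) (s : ℕ) :
    ∀ x ∈ LieAlgebra.derivedSeries ℤ L s, x ∈ ⨆ i, der X s i := by
  induction s with
  | zero =>
    intro x _
    rw [der_zero, hX]
    trivial
  | succ s ih =>
    intro x hx
    rw [LieAlgebra.derivedSeries_def, LieAlgebra.derivedSeriesOfIdeal_succ] at hx
    have hx' : x ∈ (⁅LieAlgebra.derivedSeriesOfIdeal ℤ L s ⊤,
        LieAlgebra.derivedSeriesOfIdeal ℤ L s ⊤⁆ : LieIdeal ℤ L).toSubmodule := hx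
    rw [LieSubmodule.lieIdeal_oper_eq_linear_span'] at hx'
    have hle : Submodule.span ℤ {m | ∃ x ∈ LieAlgebra.derivedSeriesOfIdeal ℤ L s ⊤,
        ∃ n ∈ LieAlgebra.derivedSeriesOfIdeal ℤ L s ⊤, ⁅x, n⁆ = m} ≤
        AddSubgroup.toIntSubmodule (⨆ i, der X (s + 1) i) := by
      refine Submodule.span_le.2 ?_
      rintro _ ⟨a, ha, b, hb, rfl⟩
      exact lie_mem_iSup_star (ih a ha) (ih b hb)
    exact hle hx'

theorem derivedSeries_eq_bot {X : G → AddSubgroup L} (hX : ⨆ i, X i = ⊤) {s : ℕ}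
    (h : der X s ≤ fun _ => ⊥) : LieAlgebra.derivedSeries ℤ L s = ⊥ := by
  refine (LieSubmodule.eq_bot_iff _).2 ?_
  intro x hx
  have h1 := derivedSeries_le hX s x hx
  have h2 : (⨆ i, der X s i) ≤ ⊥ := iSup_le fun i => h i
  exact h2 h1

end Pool.Agent.H75.Krek
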