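import Pool.Agent.H75.Krek.Window

/-!
# The ambiguity lemma
-/

set_option autoImplicit false

namespace Pool.Agent.H75.Krek

variable {L : Type*} [LieRing L] {G : Type*} [AddCommGroup G]

/-- the closed family generated by a set of homogeneous elements -/
def gen {H : Type*} [AddCommGroup H] (Q : H → Set L) : H → AddSubgroup L :=
  sInf {X | Closed X ∧ ∀ i, Q i ⊆ X i}

theorem mem_sInf_family {H : Type*} {T : Set (H → AddSubgroup L)} {i : H} {x : L} :
    x ∈ (sInf T) i ↔ ∀ X ∈ T, x ∈ X i := by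
  constructor
  · intro h X hX
    exact (sInf_le hX : sInf T ≤ X) i h
  · intro h
    have : (sInf T) i = ⨅ X : T, (X : H → AddSubgroup L) i := by
      rw [sInf_apply]
    rw [this, AddSubgroup.mem_iInf]
    intro X
    exact h X.1 X.2

theorem gen_closed {H : Type*} [AddCommGroup H] (Q : H → Set L) : Closed (gen Q) := by
  refine closed_iff.2 ?_
  intro i j x hx y hy
  refine mem_sInf_family.2 ?_
  intro X hX
  exact hX.1.mem (mem_sInf_family.1 hx X hX) (mem_sInf_family.1 hy X hX)

theorem subset_gen {H : Type*} [AddCommGroup H] (Q : H → Set L) (i : H) :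
    Q i ⊆ gen Q i := fun _ hx => mem_sInf_family.2 fun _ hX => hX.2 i hx

theorem gen_le {H : Type*} [AddCommGroup H] {Q : H → Set L} {X : H → AddSubgroup L}
    (hX : Closed X) (h : ∀ i, Q i ⊆ X i) : gen Q ≤ X := sInf_le ⟨hX, h⟩

/-- pushforward of a family along a homomorphism -/
def push (π : ℤ →+ G) (X : ℤ → AddSubgroup L) : G → AddSubgroup L :=
  fun i => ⨆ z : {z : ℤ // π z = i}, X z

theorem le_push (π : ℤ →+ G) (X : ℤ → AddSubgroup L) (z : ℤ) : X z ≤ push π X (π z) :=
  le_iSup (fun w : {w : ℤ // π w = π z} => X w) ⟨z, rfl⟩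

theorem star_push_le (π : ℤ →+ G) (X Y : ℤ → AddSubgroup L) :
    star (push π X) (push π Y) ≤ push π (star X Y) := by
  refine star_le.2 ?_
  intro i j x hx y hy
  have h1 : ∀ z : ℤ, π z = j → ∀ y ∈ Y z, ∀ x ∈ push π X i, ⁅x, y⁆ ∈ push π (star X Y) (i + j) := by
    intro z hz y hy x hx
    have : push π X i ≤ (push π (star X Y) (i + j)).comap
        ({ toFun := fun z => ⁅z, y⁆, map_zero' := zero_lie y,
           map_add' := fun a b => add_lie a b y } : L →+ L) := by
      refine iSup_le ?_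
      rintro ⟨w, hw⟩ x hx
      change ⁅x, y⁆ ∈ push π (star X Y) (i + j)
      have e : i + j = π (w + z) := by rw [map_add, hw, hz]
      rw [e]
      exact le_push π _ _ (mem_star hx hy)
    exact this hx
  have : push π Y j ≤ (push π (star X Y) (i + j)).comap
      ({ toFun := fun z => ⁅x, z⁆, map_zero' := lie_zero x,
         map_add' := fun a b => lie_add x a b } : L →+ L) := by
    refine iSup_le ?_
    rintro ⟨w, hw⟩ y hy
    exact h1 w hw y hy x hx
  exact this hy

theorem push_mono (π : ℤ →+ G) {X Y : ℤ → AddSubgroup L} (h : X ≤ Y) : push π X ≤ push π Y :=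
  fun _ => iSup_mono fun z => h z.1

theorem der_push_le (π : ℤ →+ G) (X : ℤ → AddSubgroup L) (s : ℕ) :
    der (push π X) s ≤ push π (der X s) := by
  induction s with
  | zero => exact le_rfl
  | succ s ih =>
    exact le_trans (star_mono ih ih) (star_push_le π _ _)

theorem push_closed (π : ℤ →+ G) {X : ℤ → AddSubgroup L} (h : Closed X) : Closed (push π X) :=
  le_trans (star_push_le π X X) (push_mono π h)

/-- The ambiguity lemma. -/
theorem amb {π : ℤ →+ G} {lam : G → ℤ} {S : Finset G} {U : Set G} {l : G → ℤ} {d τ : ℕ}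
    (hd : S.card ≤ d + 1) (hlam : ∀ p ∈ S, π (lam p) = p) (hl : ∀ i ∈ U, π (l i) = i)
    (hU : ∀ p ∈ S, ∀ i ∈ U, p + i ∈ S → lam (p + i) = lam p + l i)
    (hP : P L Uᶜ τ) (V V0 K : G → AddSubgroup L) (hK : Closed K) (hK0 : K 0 = ⊥) (h0V : V0 ≤ V)
    (hVK : star V K ≤ V) (hV0K : star V0 K ≤ V0) (hoff : ∀ i, i ∉ S → V i ≤ V0 i) :
    star V (der K (τ + 2 * d)) ≤ V0 := by
  classical
  -- the subring generated by the unambiguous components
  set Q : G → Set L := fun i => {x | i ∈ U ∧ x ∈ K i} with hQ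
  set R : G → AddSubgroup L := gen Q with hR
  have hRc : Closed R := gen_closed Q
  have hRK : R ≤ K := gen_le hK fun i x hx => hx.2
  have hKR : der K τ ≤ R := by
    refine hP K R hK hK0 hRc hRK ?_
    intro i hi x hx
    have hi' : i ∈ U := not_not.1 hi
    exact subset_gen Q i ⟨hi', hx⟩
  set Qz : ℤ → Set L := fun z => {x | ∃ i ∈ U, l i = z ∧ x ∈ K i} with hQz
  set Rz : ℤ → AddSubgroup L := gen Qz with hRz
  have hRzc : Closed Rz := gen_closed Qz
  have hKπ : Closed (fun z : ℤ => K (π z)) := by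
    refine closed_iff.2 ?_
    intro i j x hx y hy
    change ⁅x, y⁆ ∈ K (π (i + j))
    rw [map_add]
    exact hK.mem hx hy
  have hRzK : ∀ z, Rz z ≤ K (π z) := by
    have : Rz ≤ (fun z : ℤ => K (π z)) := by
      refine gen_le hKπ ?_
      rintro z x ⟨i, hi, hiz, hx⟩
      change x ∈ K (π z)
      rw [← hiz, hl i hi]
      exact hx
    exact this
  have hRz0 : Rz 0 = ⊥ := by
    refine le_bot_iff.1 ?_
    have := hRzK 0
    rwa [map_zero, hK0] at this
  have hRpush : R ≤ push π Rz := by
    refine gen_le (push_closed π hRzc) ?_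
    rintro i x ⟨hi, hx⟩
    have h1 : x ∈ Rz (l i) := subset_gen Qz (l i) ⟨i, hi, rfl, hx⟩
    have h2 := le_push π Rz (l i) h1
    rwa [hl i hi] at h2
  -- the lifted modules
  set Vz : ℤ → AddSubgroup L := fun z => if π z ∈ S ∧ lam (π z) = z then V (π z) else V0 (π z)
    with hVz
  set V0z : ℤ → AddSubgroup L := fun z => V0 (π z) with hV0z
  have hVz1 : ∀ z, π z ∈ S → lam (π z) = z → Vz z = V (π z) := by
    intro z h1 h2
    simp only [hVz, h1, h2, and_self, if_true]
  have hVz2 : ∀ z, ¬ (π z ∈ S ∧ lam (π z) = z) → Vz z = V0 (π z) := by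
    intro z h
    simp only [hVz, if_neg h]
  have h0Vz : V0z ≤ Vz := by
    intro z
    by_cases h : π z ∈ S ∧ lam (π z) = z
    · rw [hVz1 z h.1 h.2]; exact h0V _
    · rw [hVz2 z h]
  have hV0zR : star V0z Rz ≤ V0z := by
    refine star_le.2 ?_
    intro i j v hv x hx
    change ⁅v, x⁆ ∈ V0 (π (i + j))
    rw [map_add]
    exact star_le.1 hV0K _ _ _ hv _ (hRzK j hx)
  have hVzR : star Vz Rz ≤ Vz := by
    -- the stabiliser
    set Y : ℤ → AddSubgroup L := fun z =>
      { carrier := {x | ∀ w, ∀ v ∈ Vz w, ⁅v, x⁆ ∈ Vz (w + z)}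
        zero_mem' := fun w v _ => by rw [lie_zero]; exact zero_mem _
        add_mem' := fun {a b} ha hb w v hv => by
          rw [lie_add]; exact add_mem (ha w v hv) (hb w v hv)
        neg_mem' := fun {a} ha w v hv => by
          rw [lie_neg]; exact neg_mem (ha w v hv) } with hY
    have hYmem : ∀ z x, x ∈ Y z ↔ ∀ w, ∀ v ∈ Vz w, ⁅v, x⁆ ∈ Vz (w + z) := fun z x => Iff.rfl
    have hYc : Closed Y := by
      refine closed_iff.2 ?_
      intro i j x hx y hy
      rw [hYmem] at hx hy ⊢
      intro w v hv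
      rw [jac]
      refine sub_mem ?_ ?_
      · have := hy _ _ (hx w v hv)
        rwa [add_assoc] at this
      · have := hx _ _ (hy w v hv)
        rwa [add_assoc, add_comm j i] at this
    have hRY : Rz ≤ Y := by
      refine gen_le hYc ?_
      rintro z x ⟨i, hi, hiz, hx⟩
      change x ∈ Y z
      rw [hYmem]
      intro w v hv
      have hπz : π z = i := by rw [← hiz]; exact hl i hi
      by_cases h : π w ∈ S ∧ lam (π w) = w
      · rw [hVz1 w h.1 h.2] at hv
        have h3 : ⁅v, x⁆ ∈ V (π w + i) := star_le.1 hVK _ _ _ hv _ hx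
        have h4 : π (w + z) = π w + i := by rw [map_add, hπz]
        by_cases h5 : π w + i ∈ S
        · have h6 := hU _ h.1 i hi h5
          rw [hVz1 (w + z) (by rw [h4]; exact h5) (by rw [h4, h6, h.2, hiz]), h4]
          exact h3
        · apply h0Vz
          change ⁅v, x⁆ ∈ V0 (π (w + z))
          rw [h4]
          exact hoff _ h5 h3
      · rw [hVz2 w h] at hv
        apply h0Vz
        change ⁅v, x⁆ ∈ V0 (π (w + z))
        rw [map_add, hπz]
        exact star_le.1 hV0K _ _ _ hv _ hx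
    refine star_le.2 ?_
    intro i j v hv x hx
    exact (hYmem j x).1 (hRY j hx) i v hv
  have hcard : (S.image lam).card ≤ d + 1 := le_trans Finset.card_image_le hd
  have hoffz : ∀ z, z ∉ S.image lam → Vz z ≤ V0z z := by
    intro z hz
    rw [hVz2 z]
    rintro ⟨h1, h2⟩
    exact hz (Finset.mem_image.2 ⟨π z, h1, h2⟩)
  have hz := z_window d (S.image lam) hcard Vz V0z Rz hRzc hRz0 h0Vz hVzR hV0zR hoffz
  refine star_le.2 ?_
  intro p j v hv x hx
  by_cases hp : p ∈ S
  · have h1 : x ∈ push π (der Rz (2 * d)) j := by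
      have h2 : der K (τ + 2 * d) ≤ push π (der Rz (2 * d)) := by
        rw [der_add]
        exact le_trans (der_mono (le_trans hKR hRpush) _) (der_push_le π Rz _)
      exact h2 j hx
    have h3 : push π (der Rz (2 * d)) j ≤ (V0 (p + j)).comap
        ({ toFun := fun z => ⁅v, z⁆, map_zero' := lie_zero v,
           map_add' := fun a b => lie_add v a b } : L →+ L) := by
      refine iSup_le ?_
      rintro ⟨w, hw⟩ y hy
      change ⁅v, y⁆ ∈ V0 (p + j)
      have h4 : v ∈ Vz (lam p) := by
        rw [hVz1 (lam p) (by rw [hlam p hp]; exact hp) (by rw [hlam p hp]), hlam p hp]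
        exact hv
      have h5 : ⁅v, y⁆ ∈ V0 (π (lam p + w)) := star_le.1 hz _ _ _ h4 _ hy
      rwa [map_add, hlam p hp, hw] at h5
    exact h3 h1
  · exact star_le.1 hV0K _ _ _ (hoff p hp hv) _ (der_le hK _ _ hx)

/-- the recursion -/
theorem rec_bound {π : ℤ →+ G} {lam : G → ℤ} {S : Finset G} {U : Set G} {l : G → ℤ}
    {d τ lg : ℕ}
    (hd : S.card ≤ d + 1) (hlam : ∀ p ∈ S, π (lam p) = p) (hl : ∀ i ∈ U, π (l i) = i)
    (hU : ∀ p ∈ S, ∀ i ∈ U, p + i ∈ S → lam (p + i) = lam p + l i)
    (hP : P L Uᶜ τ) (hCF : CF (S : Set G)) (hlg : S.card ≤ 2 ^ lg) (c : ℕ) :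
    ∀ S' : Finset G, S' ⊆ S → S'.card = c →
      P L (S' : Set G) (c * (1 + (τ + 2 * d) * lg)) := by
  classical
  induction c with
  | zero =>
    intro S' _ hc
    have : S' = ∅ := Finset.card_eq_zero.1 hc
    subst this
    rw [Finset.coe_empty]
    exact P_empty _
  | succ c ih =>
    intro S' hS' hc
    have hb : ∀ b ∈ (S' : Set G), P L ((S' : Set G) \ {b}) (c * (1 + (τ + 2 * d) * lg)) := by
      intro b hb
      rw [← Finset.coe_erase]
      refine ih (S'.erase b) (fun x hx => hS' (Finset.mem_of_mem_erase hx)) ?_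
      rw [Finset.card_erase_of_mem hb, hc]
      rfl
    have hstep := P_step (L := L) (j := (τ + 2 * d) * lg) hb ?_
    · refine hstep.mono le_rfl ?_
      ring_nf
      omega
    · intro X K hX hX0 hK hKX hoff
      have hcard : S'.card ≤ 2 ^ lg := le_trans (Finset.card_le_card hS') hlg
      have hK0 : K 0 = ⊥ := le_bot_iff.1 (hX0 ▸ hKX 0)
      have h1 : star X K ≤ X := le_trans (star_mono le_rfl hKX) hX
      have h2 : star X (der K (τ + 2 * d)) ≤ K := by
        refine amb hd hlam hl hU hP X K K hK hK0 hKX h1 hK ?_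
        intro i hi
        exact hoff i fun h => hi (hS' h)
      have h3 := solv_index hcard (hCF.mono (by exact_mod_cast hS')) (τ + 2 * d) X K K hK hK0 hKX
        h1 hK (fun i hi => hoff i hi) h2
      rw [← pow_mul, mul_comm] at h3
      exact h3

end Pool.Agent.H75.Krek
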