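import Mathlib

/-!
# Graded families of additive subgroups of a Lie ring

Basic calculus of families of additive subgroups of a Lie ring, indexed by an additive
commutative group.
-/

set_option autoImplicit false

namespace Pool.Agent.H75.Krek

variable {L : Type*} [LieRing L] {G : Type*} [AddCommGroup G]

/-- the additive subgroup generated by the brackets `⁅a, b⁆`, `a ∈ A`, `b ∈ B` -/
def br (A B : AddSubgroup L) : AddSubgroup L :=
  AddSubgroup.closure {z | ∃ a ∈ A, ∃ b ∈ B, ⁅a, b⁆ = z}

theorem br_le {A B C : AddSubgroup L} :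
    br A B ≤ C ↔ ∀ a ∈ A, ∀ b ∈ B, ⁅a, b⁆ ∈ C := by
  unfold br
  rw [AddSubgroup.closure_le]
  constructor
  · intro h a ha b hb
    exact h ⟨a, ha, b, hb, rfl⟩
  · rintro h _ ⟨a, ha, b, hb, rfl⟩
    exact h a ha b hb

theorem mem_br {A B : AddSubgroup L} {a b : L} (ha : a ∈ A) (hb : b ∈ B) : ⁅a, b⁆ ∈ br A B :=
  br_le.1 le_rfl a ha b hb

/-- the product of two families -/
def star (X Y : G → AddSubgroup L) : G → AddSubgroup L :=
  fun i => ⨆ j, br (X j) (Y (i - j))

theorem star_le {X Y Z : G → AddSubgroup L} :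
    star X Y ≤ Z ↔ ∀ i j, ∀ x ∈ X i, ∀ y ∈ Y j, ⁅x, y⁆ ∈ Z (i + j) := by
  constructor
  · intro h i j x hx y hy
    have h1 := h (i + j)
    have h2 : br (X i) (Y (i + j - i)) ≤ Z (i + j) :=
      le_trans (le_iSup (fun j' => br (X j') (Y (i + j - j'))) i) h1
    rw [add_sub_cancel_left] at h2
    exact br_le.1 h2 x hx y hy
  · intro h i
    refine iSup_le fun j => br_le.2 ?_
    intro x hx y hy
    have := h j (i - j) x hx y hy
    rwa [add_sub_cancel] at this

theorem mem_star {X Y : G → AddSubgroup L} {i j : G} {x y : L} (hx : x ∈ X i) (hy : y ∈ Y j) :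
    ⁅x, y⁆ ∈ star X Y (i + j) :=
  star_le.1 le_rfl i j x hx y hy

theorem star_mono {X X' Y Y' : G → AddSubgroup L} (h : X ≤ X') (h' : Y ≤ Y') :
    star X Y ≤ star X' Y' :=
  star_le.2 fun i j x hx y hy => mem_star (h i hx) (h' j hy)

/-- A family is closed (a graded subring). -/
def Closed (X : G → AddSubgroup L) : Prop := star X X ≤ X

theorem Closed.mem {X : G → AddSubgroup L} (h : Closed X) {i j : G} {x y : L} (hx : x ∈ X i)
    (hy : y ∈ X j) : ⁅x, y⁆ ∈ X (i + j) := star_le.1 h i j x hx y hy

theorem closed_iff {X : G → AddSubgroup L} :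
    Closed X ↔ ∀ i j, ∀ x ∈ X i, ∀ y ∈ X j, ⁅x, y⁆ ∈ X (i + j) := star_le

/-- an additive subgroup of elements `x` such that a bracket condition holds -/
theorem star_iSup_le {ι : Sort*} {X : ι → G → AddSubgroup L} {Y Z : G → AddSubgroup L}
    (h : ∀ k, star (X k) Y ≤ Z) : star (⨆ k, X k) Y ≤ Z := by
  refine star_le.2 ?_
  intro i j x hx y hy
  have hx' : x ∈ ⨆ k, X k i := by rwa [iSup_apply] at hx
  have : (⨆ k, X k i) ≤ (Z (i + j)).comap
      ({ toFun := fun z => ⁅z, y⁆, map_zero' := zero_lie y, map_add' := fun a b => add_lie a b y } :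
        L →+ L) := by
    refine iSup_le fun k => ?_
    intro z hz
    exact star_le.1 (h k) i j z hz y hy
  exact this hx'

theorem star_sup_le {X X' Y Z : G → AddSubgroup L} (h : star X Y ≤ Z) (h' : star X' Y ≤ Z) :
    star (X ⊔ X') Y ≤ Z := by
  rw [sup_eq_iSup]
  refine star_iSup_le ?_
  intro b
  cases b
  · exact h'
  · exact h

/-- iterated right products -/
def act (V K : G → AddSubgroup L) : ℕ → G → AddSubgroup L
  | 0 => V
  | (m + 1) => star (act V K m) K

@[simp] theorem act_zero (V K : G → AddSubgroup L) : act V K 0 = V := rfl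

theorem act_succ (V K : G → AddSubgroup L) (m : ℕ) : act V K (m + 1) = star (act V K m) K := rfl

theorem act_add (V K : G → AddSubgroup L) (m k : ℕ) : act V K (m + k) = act (act V K m) K k := by
  induction k with
  | zero => rfl
  | succ k ih => rw [← add_assoc, act_succ, ih, act_succ]

theorem act_mono {V V' K K' : G → AddSubgroup L} (h : V ≤ V') (h' : K ≤ K') (m : ℕ) :
    act V K m ≤ act V' K' m := by
  induction m with
  | zero => exact h
  | succ m ih => exact star_mono ih h'

theorem act_le_of_stable {V K : G → AddSubgroup L} (h : star V K ≤ V) (m : ℕ) :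
    act V K m ≤ V := by
  induction m with
  | zero => exact le_rfl
  | succ m ih => exact le_trans (star_mono ih le_rfl) h

theorem act_anti {V K : G → AddSubgroup L} (h : star V K ≤ V) {m k : ℕ} (hmk : m ≤ k) :
    act V K k ≤ act V K m := by
  obtain ⟨d, rfl⟩ := Nat.exists_eq_add_of_le hmk
  rw [add_comm, act_add]
  exact act_mono (act_le_of_stable h d) le_rfl m

theorem act_iSup_le {ι : Sort*} {X : ι → G → AddSubgroup L} {Y Z : G → AddSubgroup L} (m : ℕ)
    (h : ∀ k, act (X k) Y m ≤ Z) : act (⨆ k, X k) Y m ≤ Z := by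
  have key : act (⨆ k, X k) Y m ≤ ⨆ k, act (X k) Y m := by
    clear h
    induction m with
    | zero => exact le_rfl
    | succ m ih =>
      refine le_trans (star_mono ih le_rfl) ?_
      refine star_iSup_le ?_
      intro k
      exact le_iSup (fun k => act (X k) Y (m + 1)) k
  exact le_trans key (iSup_le h)

theorem act_sup_le {X X' Y Z : G → AddSubgroup L} (m : ℕ) (h : act X Y m ≤ Z)
    (h' : act X' Y m ≤ Z) : act (X ⊔ X') Y m ≤ Z := by
  rw [sup_eq_iSup]
  refine act_iSup_le m ?_
  intro b
  cases b
  · exact h'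
  · exact h

/-- derived series of a family -/
def der (X : G → AddSubgroup L) : ℕ → G → AddSubgroup L
  | 0 => X
  | (s + 1) => star (der X s) (der X s)

@[simp] theorem der_zero (X : G → AddSubgroup L) : der X 0 = X := rfl

theorem der_succ (X : G → AddSubgroup L) (s : ℕ) : der X (s + 1) = star (der X s) (der X s) := rfl

theorem der_add (X : G → AddSubgroup L) (s t : ℕ) : der X (s + t) = der (der X s) t := by
  induction t with
  | zero => rfl
  | succ t ih => rw [← add_assoc, der_succ, ih, der_succ]

theorem der_mono {X Y : G → AddSubgroup L} (h : X ≤ Y) (s : ℕ) : der X s ≤ der Y s := by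
  induction s with
  | zero => exact h
  | succ s ih => exact star_mono ih ih

theorem closed_star {X : G → AddSubgroup L} (h : Closed X) : Closed (star X X) :=
  star_mono h h

theorem closed_der {X : G → AddSubgroup L} (h : Closed X) (s : ℕ) : Closed (der X s) := by
  induction s with
  | zero => exact h
  | succ s ih => exact closed_star ih

theorem der_le {X : G → AddSubgroup L} (h : Closed X) (s : ℕ) : der X s ≤ X := by
  induction s with
  | zero => exact le_rfl
  | succ s ih => exact le_trans (star_mono ih ih) h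

theorem der_anti {X : G → AddSubgroup L} (h : Closed X) {s t : ℕ} (hst : s ≤ t) :
    der X t ≤ der X s := by
  obtain ⟨d, rfl⟩ := Nat.exists_eq_add_of_le hst
  rw [der_add]
  exact der_le (closed_der h s) d

/-- Leibniz rule in the form used below -/
theorem jac (v x y : L) : ⁅v, ⁅x, y⁆⁆ = ⁅⁅v, x⁆, y⁆ - ⁅⁅v, y⁆, x⁆ := by
  rw [leibniz_lie v x y, ← lie_skew x ⁅v, y⁆]
  abel

theorem jac' (v x y : L) : ⁅⁅v, x⁆, y⁆ = ⁅⁅v, y⁆, x⁆ + ⁅v, ⁅x, y⁆⁆ := by
  rw [jac v x y]
  abel

/-- to prove `star V (star A B) ≤ Z` it suffices to treat iterated brackets -/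
theorem star_star_le {V A B Z : G → AddSubgroup L} (h1 : star (star V A) B ≤ Z)
    (h2 : star (star V B) A ≤ Z) : star V (star A B) ≤ Z := by
  refine star_le.2 ?_
  intro i j v hv w hw
  have : star A B j ≤ (Z (i + j)).comap
      ({ toFun := fun z => ⁅v, z⁆, map_zero' := lie_zero v, map_add' := fun a b => lie_add v a b } :
        L →+ L) := by
    refine iSup_le fun k => br_le.2 ?_
    intro a ha b hb
    change ⁅v, ⁅a, b⁆⁆ ∈ Z (i + j)
    rw [jac]
    have e1 : i + j = i + k + (j - k) := by abel
    have e2 : i + j = i + (j - k) + k := by abel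
    refine sub_mem ?_ ?_
    · rw [e1]; exact star_le.1 h1 _ _ _ (mem_star hv ha) _ hb
    · rw [e2]; exact star_le.1 h2 _ _ _ (mem_star hv hb) _ ha
  exact this hw

/-- the derived series of a stable family is stable under the big family -/
theorem star_der_le {X : G → AddSubgroup L} (h : Closed X) (s : ℕ) :
    star (der X s) X ≤ der X s := by
  induction s with
  | zero => exact h
  | succ s ih =>
    refine star_le.2 ?_
    intro i j x hx y hy
    have : der X (s + 1) i ≤ (der X (s + 1) (i + j)).comap
        ({ toFun := fun z => ⁅z, y⁆, map_zero' := zero_lie y,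
           map_add' := fun a b => add_lie a b y } : L →+ L) := by
      refine iSup_le fun k => br_le.2 ?_
      intro a ha b hb
      change ⁅⁅a, b⁆, y⁆ ∈ der X (s + 1) (i + j)
      rw [jac']
      have e1 : i + j = k + j + (i - k) := by abel
      have e2 : i + j = k + (i - k + j) := by abel
      refine add_mem ?_ ?_
      · rw [e1]; exact mem_star (star_le.1 ih _ _ _ ha _ hy) hb
      · rw [e2]; exact mem_star ha (star_le.1 ih _ _ _ hb _ hy)
    exact this hx

/-- if `V` is stable under `X`, and `D` is an ideal of `X`, then `act V D m` is stable -/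
theorem star_act_le {V D X : G → AddSubgroup L} (hV : star V X ≤ V) (hD : star D X ≤ D) (m : ℕ) :
    star (act V D m) X ≤ act V D m := by
  induction m with
  | zero => exact hV
  | succ m ih =>
    refine star_le.2 ?_
    intro i j x hx y hy
    have : act V D (m + 1) i ≤ (act V D (m + 1) (i + j)).comap
        ({ toFun := fun z => ⁅z, y⁆, map_zero' := zero_lie y,
           map_add' := fun a b => add_lie a b y } : L →+ L) := by
      refine iSup_le fun k => br_le.2 ?_
      intro a ha b hb
      change ⁅⁅a, b⁆, y⁆ ∈ act V D (m + 1) (i + j)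
      rw [jac']
      have e1 : i + j = k + j + (i - k) := by abel
      have e2 : i + j = k + (i - k + j) := by abel
      refine add_mem ?_ ?_
      · rw [e1]; exact mem_star (star_le.1 ih _ _ _ ha _ hy) hb
      · rw [e2]; exact mem_star ha (star_le.1 hD _ _ _ hb _ hy)
    exact this hx

/-- `[V, D^{(j)}] ≤ [V, D, ..., D]` (`2 ^ j` times) -/
theorem star_der_le_act (D : G → AddSubgroup L) (j : ℕ) :
    ∀ V : G → AddSubgroup L, star V (der D j) ≤ act V D (2 ^ j) := by
  induction j with
  | zero => intro V; exact le_rfl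
  | succ j ih =>
    intro V
    have hkey : star (star V (der D j)) (der D j) ≤ act V D (2 ^ (j + 1)) := by
      refine le_trans (star_mono (ih V) le_rfl) ?_
      refine le_trans (ih _) ?_
      rw [← act_add, pow_succ, mul_two]
    exact star_star_le hkey hkey

end Pool.Agent.H75.Krek
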