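import Pool.Agent.H75.Krek.Amb

/-!
# Windows in `ZMod n`
-/

set_option autoImplicit false

namespace Pool.Agent.H75.Krek

variable {L : Type*} [LieRing L]

/-- the window of length `l` starting at `a` -/
def win (n : ℕ) [NeZero n] (a : ZMod n) (l : ℕ) : Finset (ZMod n) :=
  Finset.univ.filter fun p => (p - a).val < l

theorem mem_win {n : ℕ} [NeZero n] {a : ZMod n} {l : ℕ} {p : ZMod n} :
    p ∈ win n a l ↔ (p - a).val < l := by
  simp [win]

theorem card_win_le (n : ℕ) [NeZero n] (a : ZMod n) (l : ℕ) : (win n a l).card ≤ n := by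
  refine le_trans (Finset.card_le_univ _) ?_
  rw [ZMod.card]

/-- windows whose complement has at least `n / minFac n` elements are coset free -/
theorem win_CF {n : ℕ} [NeZero n] {a : ZMod n} {l g : ℕ} (hn : 2 ≤ n) (hlg : l + g = n)
    (hg : n / n.minFac ≤ g) : CF (win n a l : Set (ZMod n)) := by
  intro p hp i hi
  have hp' : (p - a).val < l := mem_win.1 hp
  set h := Nat.gcd i.val n with hh
  have hival : i.val ≠ 0 := fun h0 => hi ((ZMod.val_eq_zero i).1 h0)
  have hhn : h ∣ n := Nat.gcd_dvd_right _ _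
  have hhi : h ∣ i.val := Nat.gcd_dvd_left _ _
  have hnpos : 0 < n := by omega
  have hhpos : 0 < h := Nat.gcd_pos_of_pos_right _ hnpos
  have hhlt : h < n := lt_of_le_of_lt (Nat.le_of_dvd (Nat.pos_of_ne_zero hival) hhi) (ZMod.val_lt i)
  have hhg : h ≤ g := by
    refine le_trans ?_ hg
    obtain ⟨c, hc⟩ := hhn
    have hc1 : c ≠ 1 := by
      rintro rfl
      omega
    have hcpos : 0 < c := by
      rcases Nat.eq_zero_or_pos c with h0 | h0
      · rw [h0, mul_zero] at hc; omega
      · exact h0
    have h2 : n.minFac ≤ c := Nat.minFac_le_of_dvd (by omega) ⟨h, by rw [hc, mul_comm]⟩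
    rw [Nat.le_div_iff_mul_le (Nat.minFac_pos n)]
    calc h * n.minFac ≤ h * c := Nat.mul_le_mul_left _ h2
      _ = n := hc.symm
  -- Bezout
  obtain ⟨m, hm⟩ : ∃ m : ℕ, m • i = ((h : ℕ) : ZMod n) := by
    have h1 : (h : ℤ) = i.val * Nat.gcdA i.val n + n * Nat.gcdB i.val n := Nat.gcd_eq_gcd_ab _ _
    have h2 : ((h : ℕ) : ZMod n) = i * (Nat.gcdA i.val n : ℤ) := by
      have := congrArg (fun z : ℤ => (z : ZMod n)) h1
      simp only [Int.cast_natCast, Int.cast_add, Int.cast_mul, CharP.cast_eq_zero, zero_mul,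
        add_zero, ZMod.natCast_zmod_val] at this
      exact this
    refine ⟨((Nat.gcdA i.val n : ℤ) : ZMod n).val, ?_⟩
    rw [nsmul_eq_mul, h2, ZMod.natCast_val, ZMod.cast_id', id_eq, mul_comm]
  -- the first multiple leaving the window
  set x := (p - a).val with hx
  obtain ⟨k, hk1, hk2⟩ : ∃ k : ℕ, l ≤ x + k * h ∧ x + k * h < n := by
    have hex : ∃ k : ℕ, l ≤ x + k * h := ⟨l, by nlinarith⟩
    refine ⟨Nat.find hex, Nat.find_spec hex, ?_⟩
    have hpos : Nat.find hex ≠ 0 := by
      intro h0
      have := Nat.find_spec hex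
      rw [h0] at this
      omega
    obtain ⟨k, hk⟩ := Nat.exists_eq_succ_of_ne_zero hpos
    have := Nat.find_min hex (m := k) (by omega)
    rw [hk]
    push Not at this
    have e : (k.succ) * h = k * h + h := Nat.succ_mul k h
    omega
  refine ⟨k * m, ?_⟩
  intro hcon
  have h3 : (p + (k * m) • i - a).val < l := mem_win.1 hcon
  have h4 : p + (k * m) • i - a = ((x + k * h : ℕ) : ZMod n) := by
    have h5 : (p - a) = ((x : ℕ) : ZMod n) := by
      rw [hx, ZMod.natCast_val, ZMod.cast_id', id_eq]
    rw [mul_smul, hm]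
    push_cast
    rw [← h5, nsmul_eq_mul]
    ring
  rw [h4, ZMod.val_natCast, Nat.mod_eq_of_lt hk2] at h3
  omega

/-- the bound for windows -/
def B (n : ℕ) : ℕ → ℕ
  | 0 => 0
  | (J + 1) => n * (1 + (B n J + 2 * n) * Nat.clog 2 n)

theorem B_le (n : ℕ) (hn : 2 ≤ n) (J : ℕ) :
    B n J + 5 * n ≤ 6 * n * (n * Nat.clog 2 n) ^ J := by
  have hclog : 1 ≤ Nat.clog 2 n := Nat.clog_pos (by norm_num) hn
  induction J with
  | zero => simp only [B, pow_zero]; omega
  | succ J ih =>
    set A := n * Nat.clog 2 n with hA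
    have hA2 : 2 ≤ A := by
      calc 2 ≤ n := hn
        _ = n * 1 := (mul_one n).symm
        _ ≤ A := Nat.mul_le_mul_left _ hclog
    have h1 : B n (J + 1) = n + A * B n J + 2 * n * A := by
      simp only [B]
      rw [hA]; ring
    rw [h1, pow_succ]
    have h2 : A * (B n J + 5 * n) ≤ A * (6 * n * A ^ J) := Nat.mul_le_mul_left _ ih
    have h3 : 6 * n * (A ^ J * A) = A * (6 * n * A ^ J) := by ring
    rw [h3]
    refine le_trans ?_ h2
    have h4 : 6 * n ≤ 3 * n * A := by nlinarith
    nlinarith

/-- the windows of gap at least `n / minFac n` -/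
theorem P_win {n : ℕ} [NeZero n] (hn : 2 ≤ n) (J : ℕ) : ∀ (g : ℕ) (a : ZMod n),
    n / n.minFac ≤ g → n + 1 ≤ 2 ^ J * (g + 1) → P L (win n a (n - g) : Set (ZMod n)) (B n J) := by
  induction J with
  | zero =>
    intro g a _ hJ
    have : win n a (n - g) = ∅ := by
      refine Finset.eq_empty_of_forall_notMem ?_
      intro p hp
      have := mem_win.1 hp
      simp only [pow_zero, one_mul] at hJ
      omega
    rw [this, Finset.coe_empty]
    exact P_empty _
  | succ J ih =>
    intro g a hg hJ
    by_cases hgn : n ≤ g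
    · have : win n a (n - g) = ∅ := by
        refine Finset.eq_empty_of_forall_notMem ?_
        intro p hp
        have := mem_win.1 hp
        omega
      rw [this, Finset.coe_empty]
      exact P_empty _
    have hgn' : g < n := not_le.1 hgn
    set l := n - g with hl
    have hlg : l + g = n := by omega
    have hCF : CF (win n a l : Set (ZMod n)) := win_CF hn hlg hg
    have hP' : P L (win n ((g + 1 : ℕ) : ZMod n) (n - (2 * g + 1)) : Set (ZMod n)) (B n J) := by
      refine ih (2 * g + 1) _ (by omega) ?_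
      rw [pow_succ] at hJ
      calc n + 1 ≤ 2 ^ J * 2 * (g + 1) := hJ
        _ = 2 ^ J * (2 * g + 1 + 1) := by ring
    set U : Set (ZMod n) := {i | i.val ≤ g ∨ l ≤ i.val} with hU
    have hUc : Uᶜ ⊆ (win n ((g + 1 : ℕ) : ZMod n) (n - (2 * g + 1)) : Set (ZMod n)) := by
      intro i hi
      have hi' : ¬ (i.val ≤ g ∨ l ≤ i.val) := hi
      push Not at hi'
      obtain ⟨h1, h2⟩ := hi'
      refine mem_win.2 ?_
      have h3 : i - ((g + 1 : ℕ) : ZMod n) = ((i.val - (g + 1) : ℕ) : ZMod n) := by
        rw [Nat.cast_sub (by omega), ZMod.natCast_val, ZMod.cast_id', id_eq]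
      have h4 : i.val < n := ZMod.val_lt i
      rw [h3, ZMod.val_natCast, Nat.mod_eq_of_lt (by omega)]
      omega
    have hPU : P L Uᶜ (B n J) := hP'.mono hUc le_rfl
    -- the lift
    let π : ℤ →+ ZMod n := (Int.castRingHom (ZMod n)).toAddMonoidHom
    have hπ : ∀ z : ℤ, π z = (z : ZMod n) := fun z => rfl
    let lam : ZMod n → ℤ := fun p => (a.val : ℤ) + ((p - a).val : ℤ)
    let ll : ZMod n → ℤ := fun i => if i.val ≤ g then (i.val : ℤ) else (i.val : ℤ) - n
    have hcard := card_win_le n a l
    have hrec := rec_bound (L := L) (π := π) (lam := lam) (S := win n a l) (U := U) (l := ll)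
      (d := n) (τ := B n J) (lg := Nat.clog 2 n) (by omega) ?_ ?_ ?_ hPU hCF ?_
      (win n a l).card (win n a l) (Finset.Subset.refl _) rfl
    · refine hrec.mono le_rfl ?_
      simp only [B]
      exact Nat.mul_le_mul_right _ hcard
    · intro p _
      rw [hπ]
      simp only [lam]
      push_cast
      rw [ZMod.natCast_zmod_val, ZMod.natCast_zmod_val]
      ring
    · intro i _
      rw [hπ]
      simp only [ll]
      split_ifs
      · rw [Int.cast_natCast, ZMod.natCast_val, ZMod.cast_id', id_eq]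
      · push_cast
        rw [ZMod.natCast_val, ZMod.cast_id', id_eq, CharP.cast_eq_zero, sub_zero]
    · intro p hp i hi hpi
      have h1 : (p - a).val < l := mem_win.1 hp
      have h2 : (p + i - a).val < l := mem_win.1 hpi
      have h3 : (p + i - a) = (p - a) + i := by ring
      have h4 : (p + i - a).val = ((p - a).val + i.val) % n := by
        rw [h3, ZMod.val_add]
      have hi' : i.val ≤ g ∨ l ≤ i.val := hi
      have h5 : i.val < n := ZMod.val_lt i
      simp only [lam, ll]
      rcases lt_or_ge ((p - a).val + i.val) n with h6 | h6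
      · rw [Nat.mod_eq_of_lt h6] at h4
        have h7 : i.val ≤ g := by
          rcases hi' with h | h
          · exact h
          · omega
        rw [if_pos h7, h4]
        push_cast
        ring
      · have h7 : ((p - a).val + i.val) % n = (p - a).val + i.val - n := by
          rw [Nat.mod_eq_sub_mod h6, Nat.mod_eq_of_lt (by omega)]
        rw [h7] at h4
        have h8 : ¬ i.val ≤ g := by omega
        rw [if_neg h8]
        have h9 : ((p + i - a).val : ℤ) = (p - a).val + i.val - n := by
          rw [h4]; push_cast [Nat.cast_sub h6]; ring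
        rw [h9]
        ring
    · exact le_trans hcard (Nat.le_pow_clog (by norm_num) n)

/-- Kreknin's doubling step -/
theorem P_double {n : ℕ} [NeZero n] {k t : ℕ} (hk1 : 1 ≤ k) (hkn : k + 1 ≤ n)
    (hP : P L (win n 1 (k - 1) : Set (ZMod n)) t) : P L (win n 1 k : Set (ZMod n)) (2 * t + 1) := by
  have hval : ∀ i : ZMod n, i ≠ 0 → (i - 1).val = i.val - 1 := by
    intro i hi
    have h1 : i.val ≠ 0 := fun h0 => hi ((ZMod.val_eq_zero i).1 h0)
    have h2 : i - 1 = ((i.val - 1 : ℕ) : ZMod n) := by
      rw [Nat.cast_sub (by omega), ZMod.natCast_val, ZMod.cast_id', id_eq, Nat.cast_one]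
    have h3 : i.val < n := ZMod.val_lt i
    rw [h2, ZMod.val_natCast, Nat.mod_eq_of_lt (by omega)]
  have hval0 : ((0 : ZMod n) - 1).val = n - 1 := by
    have h2 : (0 : ZMod n) - 1 = ((n - 1 : ℕ) : ZMod n) := by
      rw [Nat.cast_sub (by omega), CharP.cast_eq_zero, Nat.cast_one]
    rw [h2, ZMod.val_natCast, Nat.mod_eq_of_lt (by omega)]
  have hwin : ∀ (m : ℕ), m + 1 ≤ n → ∀ i : ZMod n, i ∈ win n 1 m ↔ 1 ≤ i.val ∧ i.val ≤ m := by
    intro m hm i
    rw [mem_win]
    by_cases hi : i = 0
    · subst hi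
      rw [hval0, ZMod.val_zero]
      omega
    · rw [hval i hi]
      have h1 : i.val ≠ 0 := fun h0 => hi ((ZMod.val_eq_zero i).1 h0)
      omega
  intro X K hX hX0 hK hKX hoff
  have hkval : ((k : ℕ) : ZMod n).val = k := by
    rw [ZMod.val_natCast, Nat.mod_eq_of_lt (by omega)]
  have hnk : ∀ i : ZMod n, k < i.val → X i ≤ K i := by
    intro i hi
    refine hoff i ?_
    intro h
    have := ((hwin k hkn i).1 h).2
    omega
  -- step 1
  have hstep1 : der X t ≤ adm X X ((k : ℕ) : ZMod n) (K ((k : ℕ) : ZMod n)) := by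
    refine hP X _ hX hX0 (adm_closed hX hX _ _) (fun i x hx => hx.1) ?_
    intro i hi x hx
    refine ⟨hx, ?_⟩
    intro v hv
    have hi' : ¬ (1 ≤ i.val ∧ i.val ≤ k - 1) := fun h => hi ((hwin (k - 1) (by omega) i).2 h)
    by_cases hi0 : i = 0
    · subst hi0
      rw [hX0] at hx
      have : x = 0 := hx
      subst this
      rw [lie_zero]; exact zero_mem _
    · have h1 : i.val ≠ 0 := fun h0 => hi0 ((ZMod.val_eq_zero i).1 h0)
      by_cases hik : i = ((k : ℕ) : ZMod n)
      · subst hik
        rw [sub_self, hX0] at hv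
        have : v = 0 := hv
        subst this
        rw [zero_lie]; exact zero_mem _
      · have h2 : i.val ≠ k := by
          intro h
          apply hik
          rw [← h, ZMod.natCast_val, ZMod.cast_id', id_eq]
        have h3 : k < i.val := by omega
        have h4 : i.val < n := ZMod.val_lt i
        have h5 : (((k : ℕ) : ZMod n) - i) = ((n + k - i.val : ℕ) : ZMod n) := by
          rw [Nat.cast_sub (by omega), ZMod.natCast_zmod_val, Nat.cast_add,
            CharP.cast_eq_zero (ZMod n) n, zero_add]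
        have h6 : (((k : ℕ) : ZMod n) - i).val = n + k - i.val := by
          rw [h5, ZMod.val_natCast, Nat.mod_eq_of_lt (by omega)]
        have h7 : v ∈ K (((k : ℕ) : ZMod n) - i) := hnk _ (by rw [h6]; omega) hv
        have h8 : x ∈ K i := hnk _ h3 hx
        have := hK.mem h7 h8
        rwa [sub_add_cancel] at this
  have hstep1' : der X (t + 1) ((k : ℕ) : ZMod n) ≤ K ((k : ℕ) : ZMod n) := by
    have : star (der X t) (der X t) ((k : ℕ) : ZMod n) ≤ K ((k : ℕ) : ZMod n) := by
      refine iSup_le fun j => br_le.2 ?_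
      intro a ha b hb
      have h1 := (hstep1 _ hb).2
      have e : ((k : ℕ) : ZMod n) - (((k : ℕ) : ZMod n) - j) = j := by ring
      rw [e] at h1
      exact h1 a (der_le hX t j ha)
    exact this
  -- step 2
  set X' := der X (t + 1) with hX'
  have hX'c : Closed X' := closed_der hX _
  have hX'X : X' ≤ X := der_le hX _
  have hX'0 : X' 0 = ⊥ := le_bot_iff.1 (hX0 ▸ hX'X 0)
  have hKc : Closed (K ⊓ X') := by
    refine closed_iff.2 ?_
    intro i j x hx y hy
    exact ⟨hK.mem hx.1 hy.1, hX'c.mem hx.2 hy.2⟩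
  have hfin : der X' t ≤ K ⊓ X' := by
    refine hP X' _ hX'c hX'0 hKc inf_le_right ?_
    intro i hi x hx
    refine ⟨?_, hx⟩
    have hi' : ¬ (1 ≤ i.val ∧ i.val ≤ k - 1) := fun h => hi ((hwin (k - 1) (by omega) i).2 h)
    by_cases hik : i = ((k : ℕ) : ZMod n)
    · subst hik
      exact hstep1' hx
    · have h2 : i.val ≠ k := by
        intro h
        apply hik
        rw [← h, ZMod.natCast_val, ZMod.cast_id', id_eq]
      refine hoff i ?_ (hX'X i hx)
      intro h
      have := (hwin k hkn i).1 h
      omega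
  have e : 2 * t + 1 = t + 1 + t := by ring
  rw [e, der_add]
  exact le_trans hfin inf_le_left

theorem P_all {n : ℕ} [NeZero n] (hn : 2 ≤ n) (J : ℕ)
    (hJ : n + 1 ≤ 2 ^ J * (n / n.minFac + 1)) :
    P L (win n 1 (n - 1) : Set (ZMod n)) (2 ^ (n / n.minFac - 1) * (B n J + 1) - 1) := by
  set g := n / n.minFac with hg
  have hgpos : 1 ≤ g := Nat.div_pos (Nat.minFac_le (by omega)) (Nat.minFac_pos n)
  have hgn : g + 1 ≤ n := by
    have : g < n := Nat.div_lt_self (by omega) (Nat.minFac_prime (by omega)).one_lt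
    omega
  have key : ∀ m : ℕ, m + 1 ≤ g →
      P L (win n 1 (n - g + m) : Set (ZMod n)) (2 ^ m * (B n J + 1) - 1) := by
    intro m
    induction m with
    | zero =>
      intro _
      rw [pow_zero, one_mul, add_zero, Nat.add_sub_cancel]
      exact P_win hn J g 1 le_rfl hJ
    | succ m ih =>
      intro hm
      have h1 := ih (by omega)
      have h2 := P_double (L := L) (n := n) (k := n - g + (m + 1)) (by omega) (by omega)
        (t := 2 ^ m * (B n J + 1) - 1) (by
          have e : n - g + (m + 1) - 1 = n - g + m := by omega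
          rw [e]; exact h1)
      refine h2.mono le_rfl ?_
      have h3 : 1 ≤ 2 ^ m * (B n J + 1) := Nat.mul_pos (by positivity) (by omega)
      have h4 : 2 ^ (m + 1) * (B n J + 1) = 2 * (2 ^ m * (B n J + 1)) := by ring
      rw [h4]
      omega
  have h5 := key (g - 1) (by omega)
  have e : n - g + (g - 1) = n - 1 := by omega
  rw [e] at h5
  exact h5

end Pool.Agent.H75.Krek
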