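import Pool.Agent.H75.Krek.Basic

/-!
# The key step and the index lemmas
-/

set_option autoImplicit false

namespace Pool.Agent.H75.Krek

variable {L : Type*} [LieRing L] {G : Type*} [AddCommGroup G]

/-- `P S t`: the `t`-th derived family of every family `X` with `X 0 = 0` lies in every graded
subring `K` of `X` whose components outside `S` are those of `X`. -/
def P (L : Type*) [LieRing L] {G : Type*} [AddCommGroup G] (S : Set G) (t : ℕ) : Prop :=
  ∀ X K : G → AddSubgroup L, Closed X → X 0 = ⊥ → Closed K → K ≤ X →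
    (∀ i, i ∉ S → X i ≤ K i) → der X t ≤ K

theorem P_empty (t : ℕ) : P L (∅ : Set G) t := by
  intro X K hX _ _ _ hS
  exact le_trans (der_le hX t) (fun i => hS i (Set.notMem_empty i))

theorem P.mono {S S' : Set G} {t t' : ℕ} (h : P L S t) (hS : S' ⊆ S) (ht : t ≤ t') :
    P L S' t' := by
  intro X K hX hX0 hK hKX hSS
  exact le_trans (der_anti hX ht) (h X K hX hX0 hK hKX fun i hi => hSS i (fun h' => hi (hS h')))

theorem der_zero_comp {X : G → AddSubgroup L} (h : Closed X) (h0 : X 0 = ⊥) (s : ℕ) :
    der X s 0 = ⊥ := le_bot_iff.1 (h0 ▸ der_le h s 0)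

/-- the subfamily of `X` of all elements `x` with `[V, x]_b ≤ F` -/
def adm (X V : G → AddSubgroup L) (b : G) (F : AddSubgroup L) : G → AddSubgroup L :=
  fun i =>
    { carrier := {x | x ∈ X i ∧ ∀ v ∈ V (b - i), ⁅v, x⁆ ∈ F}
      zero_mem' := ⟨zero_mem _, fun v _ => by rw [lie_zero]; exact zero_mem _⟩
      add_mem' := fun {x y} hx hy => ⟨add_mem hx.1 hy.1, fun v hv => by
        rw [lie_add]; exact add_mem (hx.2 v hv) (hy.2 v hv)⟩
      neg_mem' := fun {x} hx => ⟨neg_mem hx.1, fun v hv => by
        rw [lie_neg]; exact neg_mem (hx.2 v hv)⟩ }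

theorem mem_adm {X V : G → AddSubgroup L} {b : G} {F : AddSubgroup L} {i : G} {x : L} :
    x ∈ adm X V b F i ↔ x ∈ X i ∧ ∀ v ∈ V (b - i), ⁅v, x⁆ ∈ F := Iff.rfl

theorem adm_closed {X V : G → AddSubgroup L} (hX : Closed X) (hV : star V X ≤ V) (b : G)
    (F : AddSubgroup L) : Closed (adm X V b F) := by
  refine closed_iff.2 ?_
  intro i j x hx y hy
  refine ⟨hX.mem hx.1 hy.1, ?_⟩
  intro v hv
  rw [jac]
  refine sub_mem ?_ ?_
  · refine hy.2 _ ?_
    have := star_le.1 hV _ _ _ hv _ hx.1
    have e : b - (i + j) + i = b - j := by abel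
    rwa [e] at this
  · refine hx.2 _ ?_
    have := star_le.1 hV _ _ _ hv _ hy.1
    have e : b - (i + j) + j = b - i := by abel
    rwa [e] at this

/-- The key step. -/
theorem key {S : Set G} {t : ℕ} (hP : ∀ b ∈ S, P L (S \ {b}) t) {X K V V0 : G → AddSubgroup L}
    (hX : Closed X) (hX0 : X 0 = ⊥) (hK : Closed K) (hKX : K ≤ X)
    (hS : ∀ i, i ∉ S → X i ≤ K i) (hV : star V X ≤ V) (hV0 : V 0 = ⊥)
    (hVS : ∀ i, i ∉ S → V i ≤ V0 i) :
    star V (der X t) ≤ V0 ⊔ star V K := by
  refine star_le.2 ?_
  intro i j v hv x hx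
  by_cases hb : i + j ∈ S
  · have hA : der X t ≤ adm X V (i + j) ((V0 ⊔ star V K) (i + j)) := by
      refine hP _ hb X _ hX hX0 (adm_closed hX hV _ _) (fun k y hy => hy.1) ?_
      intro k hk y hy
      refine ⟨hy, ?_⟩
      intro w hw
      by_cases hkb : k = i + j
      · subst hkb
        rw [sub_self, hV0] at hw
        have : w = 0 := hw
        subst this
        rw [zero_lie]; exact zero_mem _
      · have hkS : k ∉ S := fun h => hk ⟨h, hkb⟩
        have hyK : y ∈ K k := hS k hkS hy
        have := mem_star hw hyK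
        rw [sub_add_cancel] at this
        exact (le_sup_right : star V K ≤ V0 ⊔ star V K) _ this
    have h1 := (hA j hx).2 v
    rw [add_sub_cancel_right] at h1
    exact h1 hv
  · have h1 : ⁅v, x⁆ ∈ V (i + j) := star_le.1 hV _ _ _ hv _ (der_le hX t j hx)
    exact (le_sup_left : V0 ≤ V0 ⊔ star V K) _ (hVS _ hb h1)

/-- Iterated key step. -/
theorem key_iter {S : Set G} {t : ℕ} (hP : ∀ b ∈ S, P L (S \ {b}) t)
    {X K V V0 : G → AddSubgroup L}
    (hX : Closed X) (hX0 : X 0 = ⊥) (hK : Closed K) (hKX : K ≤ X)
    (hS : ∀ i, i ∉ S → X i ≤ K i) (hV : star V X ≤ V) (hV0 : V 0 = ⊥)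
    (hV0K : star V0 K ≤ V0) (hVS : ∀ i, i ∉ S → V i ≤ V0 i) (m : ℕ) :
    act V (der X t) m ≤ V0 ⊔ act V K m := by
  induction m with
  | zero => exact le_sup_right
  | succ m ih =>
    set D := der X t with hD
    have hst : star (act V D m) X ≤ act V D m := star_act_le hV (star_der_le hX t) m
    have hVD : star V D ≤ V := le_trans (star_mono le_rfl (der_le hX t)) hV
    have hle : act V D m ≤ V := act_le_of_stable hVD m
    have h1 : star (act V D m) D ≤ (act V D m ⊓ V0) ⊔ star (act V D m) K := by
      refine key hP hX hX0 hK hKX hS hst (le_bot_iff.1 (hV0 ▸ hle 0)) ?_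
      intro i hi
      exact le_inf le_rfl (le_trans (hle i) (hVS i hi))
    refine le_trans h1 (sup_le (le_trans inf_le_right le_sup_left) ?_)
    refine le_trans (star_mono ih le_rfl) ?_
    exact star_sup_le (le_trans hV0K le_sup_left) le_sup_right

/-- the recursive step for `P` -/
theorem P_step {S : Set G} {t j : ℕ} (hP : ∀ b ∈ S, P L (S \ {b}) t)
    (hν : ∀ X K : G → AddSubgroup L, Closed X → X 0 = ⊥ → Closed K → K ≤ X →
      (∀ i, i ∉ S → X i ≤ K i) → act X K (2 ^ j) ≤ K) : P L S (t + j + 1) := by
  intro X K hX hX0 hK hKX hS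
  have h1 : act X (der X t) (2 ^ j) ≤ K := by
    refine le_trans (key_iter hP hX hX0 hK hKX hS hX hX0 hK hS (2 ^ j)) ?_
    exact sup_le le_rfl (hν X K hX hX0 hK hKX hS)
  have h2 : der X (t + j + 1) = star (der (der X t) j) (der (der X t) j) := by
    rw [der_succ, der_add]
  rw [h2]
  refine le_trans (star_mono ?_ le_rfl) (le_trans (star_der_le_act (der X t) j X) h1)
  exact le_trans (der_le (closed_der hX t) j) (der_le hX t)

/-- A set is coset free if no coset of a nonzero cyclic subgroup lies in it. -/
def CF (S : Set G) : Prop := ∀ p ∈ S, ∀ i : G, i ≠ 0 → ∃ m : ℕ, p + m • i ∉ S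

theorem CF.mono {S S' : Set G} (h : CF S) (hS : S' ⊆ S) : CF S' := by
  intro p hp i hi
  obtain ⟨m, hm⟩ := h p (hS hp) i hi
  exact ⟨m, fun h' => hm (hS h')⟩

theorem act_succ' (V K : G → AddSubgroup L) (m : ℕ) : act V K (m + 1) = act (star V K) K m := by
  rw [add_comm, act_add]; rfl

/-- the part of `V * C` coming from one component of `C` -/
def part [DecidableEq G] (V V0 C : G → AddSubgroup L) (j : G) : G → AddSubgroup L :=
  fun i => V0 i ⊔ br (V (i - j)) (C j)

/-- Index of a family acting commutatively on a section with weights in a coset free set. -/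
theorem abelian_index (d : ℕ) : ∀ (S : Finset G), S.card ≤ d → CF (S : Set G) →
    ∀ V V0 C : G → AddSubgroup L, C 0 = ⊥ → V0 ≤ V → star V C ≤ V → star V0 C ≤ V0 →
    (∀ i j k, ∀ v ∈ V i, ∀ x ∈ C j, ∀ y ∈ C k, ⁅⁅v, x⁆, y⁆ - ⁅⁅v, y⁆, x⁆ ∈ V0 (i + j + k)) →
    (∀ i, i ∉ S → V i ≤ V0 i) → act V C d ≤ V0 := by
  classical
  induction d with
  | zero =>
    intro S hd _ V V0 C _ _ _ _ _ hS i
    have : S = ∅ := Finset.card_eq_zero.1 (Nat.le_zero.1 hd)
    subst this
    exact hS i (Finset.notMem_empty i)
  | succ d ih =>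
    intro S hd hCF V V0 C hC0 h0V hVC hV0C hcomm hS
    by_cases hSe : S = ∅
    · subst hSe
      refine le_trans (act_le_of_stable hVC (d + 1)) ?_
      intro i
      exact hS i (Finset.notMem_empty i)
    rw [act_succ']
    have hsub : star V C ≤ ⨆ j, part V V0 C j := by
      intro i
      refine iSup_le fun j => ?_
      rw [iSup_apply]
      refine le_trans ?_ (le_iSup (fun j' => part V V0 C j' i) (i - j))
      unfold part
      have e : i - (i - j) = j := by abel
      rw [e]
      exact le_sup_right
    refine le_trans (act_mono hsub le_rfl d) (act_iSup_le d ?_)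
    intro j
    by_cases hj : j = 0
    · subst hj
      have h1 : part V V0 C 0 ≤ V0 := by
        intro i
        unfold part
        rw [hC0]
        refine sup_le le_rfl (br_le.2 ?_)
        intro a _ b hb
        have : b = 0 := hb
        subst this
        rw [lie_zero]; exact zero_mem _
      exact le_trans (act_mono h1 le_rfl d) (act_le_of_stable hV0C d)
    · have hpV : part V V0 C j ≤ V := by
        intro i
        refine sup_le (h0V i) (br_le.2 ?_)
        intro a ha b hb
        have := star_le.1 hVC _ _ _ ha _ hb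
        rwa [sub_add_cancel] at this
      have hcard : (S.filter (fun i => i - j ∈ S)).card ≤ d := by
        have hlt : (S.filter (fun i => i - j ∈ S)).card < S.card := by
          refine Finset.card_lt_card (Finset.filter_ssubset.2 ?_)
          by_contra hcon
          push Not at hcon
          obtain ⟨p, hp⟩ := Finset.nonempty_iff_ne_empty.2 hSe
          obtain ⟨m, hm⟩ := hCF p hp (-j) (neg_ne_zero.2 hj)
          apply hm
          clear hm
          induction m with
          | zero => simpa using hp
          | succ m ihm =>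
            have := hcon _ ihm
            have e : p + (m + 1) • (-j) = p + m • (-j) - j := by
              rw [succ_nsmul]; abel
            rw [e]
            exact this
        omega
      refine ih (S.filter (fun i => i - j ∈ S)) hcard
        (hCF.mono (by intro x hx; exact (Finset.mem_filter.1 hx).1)) (part V V0 C j) V0 C hC0
        (fun i => le_sup_left) ?_ hV0C ?_ ?_
      · refine star_le.2 ?_
        intro i k x hx y hy
        have hmap : part V V0 C j i ≤ (part V V0 C j (i + k)).comap
            ({ toFun := fun z => ⁅z, y⁆, map_zero' := zero_lie y,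
               map_add' := fun a b => add_lie a b y } : L →+ L) := by
          refine sup_le ?_ (br_le.2 ?_)
          · intro z hz
            exact (le_sup_left : V0 (i + k) ≤ part V V0 C j (i + k)) (star_le.1 hV0C _ _ _ hz _ hy)
          · intro a ha b hb
            change ⁅⁅a, b⁆, y⁆ ∈ part V V0 C j (i + k)
            have h1 := hcomm _ _ _ a ha b hb y hy
            have h2 : ⁅⁅a, y⁆, b⁆ ∈ br (V (i + k - j)) (C j) := by
              refine mem_br ?_ hb
              have := star_le.1 hVC _ _ _ ha _ hy
              have e : i - j + k = i + k - j := by abel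
              rwa [e] at this
            have e3 : i - j + j + k = i + k := by abel
            rw [e3] at h1
            have e4 : ⁅⁅a, b⁆, y⁆ = (⁅⁅a, b⁆, y⁆ - ⁅⁅a, y⁆, b⁆) + ⁅⁅a, y⁆, b⁆ := by abel
            rw [e4]
            exact add_mem (AddSubgroup.mem_sup_left h1) (AddSubgroup.mem_sup_right h2)
        exact hmap hx
      · intro i k l v hv x hx y hy
        exact hcomm i k l v (hpV i hv) x hx y hy
      · intro i hi
        by_cases hiS : i ∈ S
        · have hij : i - j ∉ S := fun h => hi (Finset.mem_filter.2 ⟨hiS, h⟩)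
          refine sup_le le_rfl (br_le.2 ?_)
          intro a ha b hb
          have := star_le.1 hV0C _ _ _ (hS _ hij ha) _ hb
          rwa [sub_add_cancel] at this
        · exact le_trans (hpV i) (hS i hiS)

/-- Index of a soluble family on a section with weights in a coset free set. -/
theorem solv_index {S : Finset G} {d : ℕ} (hd : S.card ≤ d) (hCF : CF (S : Set G)) (s : ℕ) :
    ∀ V V0 K : G → AddSubgroup L, Closed K → K 0 = ⊥ → V0 ≤ V → star V K ≤ V → star V0 K ≤ V0 →
    (∀ i, i ∉ S → V i ≤ V0 i) → star V (der K s) ≤ V0 → act V K (d ^ s) ≤ V0 := by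
  induction s with
  | zero =>
    intro V V0 K _ _ _ _ _ _ h
    rw [pow_zero]
    exact h
  | succ s ih =>
    intro V V0 K hK hK0 h0V hVK hV0K hS hder
    set C := der K s with hC
    have hCK : C ≤ K := der_le hK s
    have hVC : star V C ≤ V := le_trans (star_mono le_rfl hCK) hVK
    have hV0C : star V0 C ≤ V0 := le_trans (star_mono le_rfl hCK) hV0K
    have hC0 : C 0 = ⊥ := der_zero_comp hK hK0 s
    have hact : act V C d ≤ V0 := by
      refine abelian_index d S hd hCF V V0 C hC0 h0V hVC hV0C ?_ hS
      intro i j k v hv x hx y hy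
      rw [← jac]
      have e : i + j + k = i + (j + k) := by abel
      rw [e]
      refine star_le.1 hder _ _ _ hv _ ?_
      rw [der_succ]
      exact mem_star hx hy
    -- the filtration
    have hW : ∀ j, star (V0 ⊔ act V C j) K ≤ V0 ⊔ act V C j := by
      intro j
      refine star_sup_le (le_trans hV0K le_sup_left) (le_trans ?_ le_sup_right)
      exact star_act_le hVK (star_der_le hK s) j
    have hWle : ∀ j, V0 ⊔ act V C j ≤ V := fun j => sup_le h0V (act_le_of_stable hVC j)
    have hstep : ∀ j, act (V0 ⊔ act V C j) K (d ^ s) ≤ V0 ⊔ act V C (j + 1) := by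
      intro j
      refine ih _ _ K hK hK0 ?_ (hW j) (hW (j + 1)) ?_ ?_
      · exact sup_le_sup le_rfl (act_anti hVC (Nat.le_succ j))
      · intro i hi
        exact le_trans (hWle j i) (le_trans (hS i hi) (le_sup_left (a := V0 i)))
      · refine star_sup_le (le_trans hV0C le_sup_left) ?_
        exact le_sup_right
    have hiter : ∀ j, act V K (j * d ^ s) ≤ V0 ⊔ act V C j := by
      intro j
      induction j with
      | zero => rw [zero_mul]; exact le_sup_right
      | succ j ihj =>
        rw [Nat.succ_mul, act_add]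
        exact le_trans (act_mono ihj le_rfl _) (hstep j)
    have := hiter d
    rw [pow_succ, mul_comm]
    exact le_trans this (sup_le le_rfl hact)

end Pool.Agent.H75.Krek
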