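import Pool.Agent.H75.Krek.Key

/-!
# Modules over a `ℤ`-graded Lie ring with a finite window
-/

set_option autoImplicit false

namespace Pool.Agent.H75.Krek

variable {L : Type*} [LieRing L]

theorem z_window (d : ℕ) : ∀ W : Finset ℤ, W.card ≤ d + 1 →
    ∀ V V0 K : ℤ → AddSubgroup L, Closed K → K 0 = ⊥ → V0 ≤ V → star V K ≤ V → star V0 K ≤ V0 →
    (∀ i, i ∉ W → V i ≤ V0 i) → star V (der K (2 * d)) ≤ V0 := by
  induction d with
  | zero =>
    intro W hW V V0 K hK hK0 h0V hVK hV0K hoff
    change star V K ≤ V0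
    refine star_le.2 ?_
    intro i j v hv x hx
    by_cases hi : i ∈ W
    · by_cases hj : j = 0
      · subst hj
        rw [hK0] at hx
        have : x = 0 := hx
        subst this
        rw [lie_zero]; exact zero_mem _
      · refine hoff _ ?_ (star_le.1 hVK _ _ _ hv _ hx)
        intro hij
        have := Finset.card_le_one.1 (by simpa using hW) _ hi _ hij
        apply hj
        omega
    · exact star_le.1 hV0K _ _ _ (hoff _ hi hv) _ hx
  | succ d ih =>
    intro W hW V V0 K hK hK0 h0V hVK hV0K hoff
    by_cases hWe : W = ∅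
    · have hVV0 : V ≤ V0 := by
        intro i
        refine hoff i ?_
        rw [hWe]; exact Finset.notMem_empty i
      exact le_trans (star_mono le_rfl (der_le hK _)) (le_trans hVK hVV0)
    have hWne : W.Nonempty := Finset.nonempty_iff_ne_empty.2 hWe
    set t := W.max' hWne with ht
    have htW : t ∈ W := W.max'_mem hWne
    have hmax : ∀ i ∈ W, i ≤ t := fun i hi => W.le_max' i hi
    have hoff' : ∀ i, t < i → V i ≤ V0 i := by
      intro i hi
      refine hoff i ?_
      intro h
      exact absurd (hmax i h) (not_le.2 hi)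
    -- the family `E`
    set 𝒳 : Set (ℤ → AddSubgroup L) := {X | V0 ≤ X ∧ V t ≤ X t ∧
      ∀ i j, j < 0 → ∀ x ∈ X i, ∀ y ∈ K j, ⁅x, y⁆ ∈ X (i + j)} with h𝒳
    set E : ℤ → AddSubgroup L := sInf 𝒳 with hE
    have hEle : ∀ X ∈ 𝒳, E ≤ X := fun X hX => sInf_le hX
    have hEmem : ∀ i x, x ∈ E i ↔ ∀ X ∈ 𝒳, x ∈ X i := by
      intro i x
      constructor
      · intro h X hX
        exact hEle X hX i h
      · intro h
        have : E i = ⨅ X : 𝒳, (X : ℤ → AddSubgroup L) i := by
          rw [hE, sInf_apply]
        rw [this]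
        rw [AddSubgroup.mem_iInf]
        intro X
        exact h X.1 X.2
    have hE𝒳 : E ∈ 𝒳 := by
      refine ⟨le_sInf fun X hX => hX.1, ?_, ?_⟩
      · intro v hv
        exact (hEmem t v).2 fun X hX => hX.2.1 hv
      · intro i j hj x hx y hy
        exact (hEmem _ _).2 fun X hX => hX.2.2 i j hj x ((hEmem _ _).1 hx X hX) y hy
    have hEV : E ≤ V := by
      refine hEle V ⟨h0V, le_rfl, ?_⟩
      intro i j _ x hx y hy
      exact star_le.1 hVK _ _ _ hx _ hy
    set E' : ℤ → AddSubgroup L := fun i => if i = t then V0 t else E i with hE'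
    have hE't : E' t = V0 t := by simp [hE']
    have hE'ne : ∀ i, i ≠ t → E' i = E i := by
      intro i hi
      simp [hE', hi]
    have hV0E' : V0 ≤ E' := by
      intro i
      by_cases hi : i = t
      · subst hi; rw [hE't]
      · rw [hE'ne i hi]; exact hE𝒳.1 i
    have hE'E : E' ≤ E := by
      intro i
      by_cases hi : i = t
      · subst hi; rw [hE't]; exact hE𝒳.1 _
      · rw [hE'ne i hi]
    -- negative components
    have hneg : ∀ i j, j < 0 → ∀ x ∈ E i, ∀ y ∈ K j, ⁅x, y⁆ ∈ E' (i + j) := by
      intro i j hj x hx y hy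
      by_cases hij : i + j = t
      · have hi : t < i := by omega
        have hx0 : x ∈ V0 i := hoff' i hi (hEV i hx)
        exact hV0E' _ (star_le.1 hV0K _ _ _ hx0 _ hy)
      · rw [hE'ne _ hij]
        exact hE𝒳.2.2 i j hj x hx y hy
    -- positive components
    set Xf : ℤ → AddSubgroup L := fun i =>
      { carrier := {e | e ∈ E i ∧ ∀ m, 0 < m → ∀ x ∈ K m, ⁅e, x⁆ ∈ E' (i + m)}
        zero_mem' := ⟨zero_mem _, fun m _ x _ => by rw [zero_lie]; exact zero_mem _⟩
        add_mem' := fun {a b} ha hb => ⟨add_mem ha.1 hb.1, fun m hm x hx => by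
          rw [add_lie]; exact add_mem (ha.2 m hm x hx) (hb.2 m hm x hx)⟩
        neg_mem' := fun {a} ha => ⟨neg_mem ha.1, fun m hm x hx => by
          rw [neg_lie]; exact neg_mem (ha.2 m hm x hx)⟩ } with hXf
    have hXfmem : ∀ i e, e ∈ Xf i ↔ e ∈ E i ∧ ∀ m, 0 < m → ∀ x ∈ K m, ⁅e, x⁆ ∈ E' (i + m) :=
      fun i e => Iff.rfl
    have hXf𝒳 : Xf ∈ 𝒳 := by
      refine ⟨?_, ?_, ?_⟩
      · intro i e he
        refine (hXfmem i e).2 ⟨hE𝒳.1 i he, ?_⟩
        intro m _ x hx
        exact hV0E' _ (star_le.1 hV0K _ _ _ he _ hx)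
      · intro e he
        refine (hXfmem t e).2 ⟨hE𝒳.2.1 he, ?_⟩
        intro m hm x hx
        refine hV0E' _ (hoff' _ (by omega) (star_le.1 hVK _ _ _ he _ hx))
      · intro i j hj e he y hy
        obtain ⟨heE, hepos⟩ := (hXfmem i e).1 he
        refine (hXfmem _ _).2 ⟨hE𝒳.2.2 i j hj e heE y hy, ?_⟩
        intro m hm x hx
        rw [jac']
        have e1 : i + j + m = i + m + j := by ring
        have e2 : i + j + m = i + (j + m) := by ring
        refine add_mem ?_ ?_
        · rw [e1]
          exact hneg _ _ hj _ (hE'E _ (hepos m hm x hx)) _ hy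
        · rw [e2]
          have hyx : ⁅y, x⁆ ∈ K (j + m) := hK.mem hy hx
          rcases lt_trichotomy (j + m) 0 with h | h | h
          · exact hneg _ _ h _ heE _ hyx
          · rw [h, hK0] at hyx
            have : ⁅y, x⁆ = 0 := hyx
            rw [this, lie_zero]; exact zero_mem _
          · exact hepos _ h _ hyx
    have hEXf : E ≤ Xf := hEle Xf hXf𝒳
    have hEK : star E K ≤ E' := by
      refine star_le.2 ?_
      intro i j e he x hx
      rcases lt_trichotomy j 0 with h | h | h
      · exact hneg _ _ h _ he _ hx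
      · subst h
        rw [hK0] at hx
        have : x = 0 := hx
        subst this
        rw [lie_zero]; exact zero_mem _
      · exact ((hXfmem i e).1 (hEXf i he)).2 j h x hx
    have hcard : (W.erase t).card ≤ d + 1 := by
      rw [Finset.card_erase_of_mem htW]; omega
    set C := der K (2 * d) with hC
    have hCK : C ≤ K := der_le hK _
    have h1 : star V C ≤ E := by
      refine ih (W.erase t) hcard V E K hK hK0 hEV hVK (le_trans hEK hE'E) ?_
      intro i hi
      by_cases hit : i = t
      · subst hit; exact hE𝒳.2.1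
      · have : i ∉ W := fun h => hi (Finset.mem_erase.2 ⟨hit, h⟩)
        exact le_trans (hoff i this) (hE𝒳.1 i)
    have h2 : star E' C ≤ V0 := by
      refine ih (W.erase t) hcard E' V0 K hK hK0 hV0E' (le_trans (star_mono hE'E le_rfl) hEK)
        hV0K ?_
      intro i hi
      by_cases hit : i = t
      · subst hit; rw [hE't]
      · have : i ∉ W := fun h => hi (Finset.mem_erase.2 ⟨hit, h⟩)
        exact le_trans (hE'E i) (le_trans (hEV i) (hoff i this))
    have h3 : star (star (star V C) C) C ≤ V0 := by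
      refine le_trans (star_mono (star_mono h1 le_rfl) le_rfl) ?_
      refine le_trans (star_mono (le_trans (star_mono le_rfl hCK) hEK) le_rfl) h2
    have h4 : act V C 4 ≤ V0 := by
      change star (star (star (star V C) C) C) C ≤ V0
      exact le_trans (star_mono h3 hCK) hV0K
    have h5 : der K (2 * (d + 1)) = der C 2 := by
      rw [mul_add, mul_one, der_add]
    rw [h5]
    exact le_trans (star_der_le_act C 2 V) h4

end Pool.Agent.H75.Krek
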